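import Mathlib

set_option autoImplicit false

open MeasureTheory Set Filter Topology

namespace Pool.Agent.R521.TP

/-- Measure of the set of `θ ∈ (0, 1)` with `M ^ θ` within `ε` of a positive integer. -/
theorem meas_near {M : ℕ} (hM : 4 ≤ M) {ε : ℝ} (hε : 0 ≤ ε) :
    volume {θ : ℝ | θ ∈ Ioo (0 : ℝ) 1 ∧ ∃ b : ℕ, 1 ≤ b ∧ |(M : ℝ) ^ θ - b| ≤ ε} ≤
      ENNReal.ofReal (12 * ε) := by
  rcases le_or_gt ε (1 / 2) with h2 | h2
  swap
  · calc volume {θ : ℝ | θ ∈ Ioo (0 : ℝ) 1 ∧ ∃ b : ℕ, 1 ≤ b ∧ |(M : ℝ) ^ θ - b| ≤ ε}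
        ≤ volume (Ioo (0 : ℝ) 1) := measure_mono fun θ hθ => hθ.1
      _ = ENNReal.ofReal (1 - 0) := Real.volume_Ioo
      _ ≤ ENNReal.ofReal (12 * ε) := ENNReal.ofReal_le_ofReal (by linarith)
  have hM1 : (4 : ℝ) ≤ M := by exact_mod_cast hM
  have hM0 : (0 : ℝ) < M := by linarith
  have hlogM : 0 < Real.log M := Real.log_pos (by linarith)
  have hlog4 : 1 < Real.log M := by
    rw [Real.lt_log_iff_exp_lt hM0]
    have := Real.exp_one_lt_d9
    linarith
  -- covering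
  have hcov : {θ : ℝ | θ ∈ Ioo (0 : ℝ) 1 ∧ ∃ b : ℕ, 1 ≤ b ∧ |(M : ℝ) ^ θ - b| ≤ ε} ⊆
      ⋃ b ∈ Finset.Icc 1 M, Icc (Real.log (b - ε) / Real.log M) (Real.log (b + ε) / Real.log M) := by
    rintro θ ⟨⟨hθ0, hθ1⟩, b, hb1, hb⟩
    rw [abs_le] at hb
    have hb1' : (1 : ℝ) ≤ b := by exact_mod_cast hb1
    have hMθ : (M : ℝ) ^ θ < M := by
      calc (M : ℝ) ^ θ < (M : ℝ) ^ (1 : ℝ) := Real.rpow_lt_rpow_of_exponent_lt (by linarith) hθ1
        _ = M := Real.rpow_one _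
    have hbM : b ≤ M := by
      by_contra hlt
      push Not at hlt
      have : (M : ℝ) + 1 ≤ b := by exact_mod_cast hlt
      linarith [hb.1]
    simp only [mem_iUnion, Finset.mem_Icc]
    refine ⟨b, ⟨hb1, hbM⟩, ?_, ?_⟩
    · rw [div_le_iff₀ hlogM, ← Real.log_rpow hM0]
      exact Real.log_le_log (by linarith) (by linarith [hb.1])
    · rw [le_div_iff₀ hlogM, ← Real.log_rpow hM0]
      exact Real.log_le_log (Real.rpow_pos_of_pos hM0 _) (by linarith [hb.2])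
  have hlen : ∀ b ∈ Finset.Icc 1 M,
      volume (Icc (Real.log ((b : ℕ) - ε) / Real.log M) (Real.log (b + ε) / Real.log M)) ≤
        ENNReal.ofReal (4 * ε / Real.log M * (1 / (b : ℝ))) := by
    intro b hb
    rw [Finset.mem_Icc] at hb
    have hb1' : (1 : ℝ) ≤ b := by exact_mod_cast hb.1
    rw [Real.volume_Icc]
    apply ENNReal.ofReal_le_ofReal
    rw [← sub_div, ← Real.log_div (by linarith) (by linarith)]
    have h1 : Real.log ((b + ε) / (b - ε)) ≤ (b + ε) / (b - ε) - 1 :=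
      Real.log_le_sub_one_of_pos (by apply div_pos <;> linarith)
    have h3 : (b + ε) / (b - ε) - 1 ≤ 4 * ε / b := by
      have hbe : (0 : ℝ) < b - ε := by linarith
      rw [div_sub_one hbe.ne', div_le_div_iff₀ hbe (by linarith)]
      nlinarith
    calc Real.log ((b + ε) / (b - ε)) / Real.log M ≤ (4 * ε / b) / Real.log M :=
          div_le_div_of_nonneg_right (h1.trans h3) hlogM.le
      _ = 4 * ε / Real.log M * (1 / (b : ℝ)) := by ring
  calc volume {θ : ℝ | θ ∈ Ioo (0 : ℝ) 1 ∧ ∃ b : ℕ, 1 ≤ b ∧ |(M : ℝ) ^ θ - b| ≤ ε}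
      ≤ volume (⋃ b ∈ Finset.Icc 1 M,
          Icc (Real.log ((b : ℕ) - ε) / Real.log M) (Real.log (b + ε) / Real.log M)) :=
        measure_mono hcov
    _ ≤ ∑ b ∈ Finset.Icc 1 M,
          volume (Icc (Real.log ((b : ℕ) - ε) / Real.log M) (Real.log (b + ε) / Real.log M)) :=
        measure_biUnion_finset_le _ _
    _ ≤ ∑ b ∈ Finset.Icc 1 M, ENNReal.ofReal (4 * ε / Real.log M * (1 / (b : ℝ))) :=
        Finset.sum_le_sum hlen
    _ = ENNReal.ofReal (∑ b ∈ Finset.Icc 1 M, 4 * ε / Real.log M * (1 / (b : ℝ))) := by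
        rw [ENNReal.ofReal_sum_of_nonneg]
        intro b _
        positivity
    _ ≤ ENNReal.ofReal (12 * ε) := by
        apply ENNReal.ofReal_le_ofReal
        rw [← Finset.mul_sum]
        have hharm : ∑ b ∈ Finset.Icc 1 M, (1 / (b : ℝ)) ≤ 1 + Real.log M := by
          have := harmonic_le_one_add_log M
          rw [harmonic_eq_sum_Icc] at this
          push_cast at this
          simpa [one_div] using this
        calc 4 * ε / Real.log M * ∑ b ∈ Finset.Icc 1 M, (1 / (b : ℝ))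
            ≤ 4 * ε / Real.log M * (1 + Real.log M) :=
              mul_le_mul_of_nonneg_left hharm (by positivity)
          _ ≤ 4 * ε / Real.log M * (2 * Real.log M) :=
              mul_le_mul_of_nonneg_left (by linarith) (by positivity)
          _ = 8 * ε := by field_simp; ring
          _ ≤ 12 * ε := by linarith

/-- `(M + h) ^ θ - M ^ θ ≤ h M ^ (θ - 1)` for `0 < θ < 1`. -/
theorem rpow_sub_le {M h θ : ℝ} (hM : 1 ≤ M) (hh : 0 ≤ h) (h0 : 0 < θ) (h1 : θ < 1) :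
    (M + h) ^ θ - M ^ θ ≤ h * M ^ (θ - 1) := by
  have hM0 : 0 < M := by linarith
  have e1 : (M + h) ^ θ = M ^ θ * (1 + h / M) ^ θ := by
    rw [← Real.mul_rpow hM0.le (by positivity)]
    congr 1
    field_simp
  have hhM : (-1 : ℝ) ≤ h / M := by
    have : 0 ≤ h / M := by positivity
    linarith
  have e2 : (1 + h / M) ^ θ ≤ 1 + θ * (h / M) :=
    rpow_one_add_le_one_add_mul_self hhM h0.le h1.le
  have e3 : M ^ (θ - 1) = M ^ θ / M := by rw [Real.rpow_sub_one hM0.ne']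
  rw [e1, e3]
  have hMθ : 0 < M ^ θ := Real.rpow_pos_of_pos hM0 _
  have e4 : M ^ θ * (1 + h / M) ^ θ ≤ M ^ θ * (1 + θ * (h / M)) :=
    mul_le_mul_of_nonneg_left e2 hMθ.le
  have e5 : θ * (h / M) ≤ 1 * (h / M) := mul_le_mul_of_nonneg_right h1.le (by positivity)
  have e6 : M ^ θ * (1 + θ * (h / M)) ≤ M ^ θ * (1 + 1 * (h / M)) :=
    mul_le_mul_of_nonneg_left (by linarith) hMθ.le
  have e7 : M ^ θ * (1 + 1 * (h / M)) = M ^ θ + h * (M ^ θ / M) := by ring
  linarith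

end Pool.Agent.R521.TP
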