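import Mathlib
import Pool.Agent.R521.TP.Meas

set_option autoImplicit false

open MeasureTheory Set Filter Topology

namespace Pool.Agent.R521.TP

/-- `m` lies in one of the blocks `[4 ^ j, 4 ^ j + j ^ 2)`. -/
def InBlock (m : ℕ) : Prop := m < 4 ^ (Nat.log 4 m) + (Nat.log 4 m) ^ 2

open Classical in
/-- `ρ(m) = m / j ^ 2` on the block `[4 ^ j, 4 ^ j + j ^ 2)`, and `0` elsewhere. -/
noncomputable def rho (m : ℕ) : ℝ :=
  if InBlock m then (m : ℝ) / (Nat.log 4 m : ℝ) ^ 2 else 0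

theorem rho_nonneg (m : ℕ) : 0 ≤ rho m := by
  unfold rho
  split_ifs <;> positivity

theorem sq_le_four_pow (j : ℕ) : j ^ 2 ≤ 4 ^ j := by
  have h1 : j ≤ 2 ^ j := Nat.lt_two_pow_self.le
  calc j ^ 2 ≤ (2 ^ j) ^ 2 := Nat.pow_le_pow_left h1 2
    _ = 4 ^ j := by rw [← pow_mul, mul_comm, pow_mul]; norm_num

theorem log_of_mem {j m : ℕ} (h1 : 4 ^ j ≤ m) (h2 : m < 4 ^ j + j ^ 2) : Nat.log 4 m = j := by
  have h3 := sq_le_four_pow j
  rw [Nat.log_eq_iff (Or.inr ⟨by norm_num, ?_⟩)]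
  · refine ⟨h1, ?_⟩
    rw [pow_succ]
    omega
  · have : 0 < 4 ^ j := by positivity
    omega

theorem rho_of_mem {j m : ℕ} (h1 : 4 ^ j ≤ m) (h2 : m < 4 ^ j + j ^ 2) :
    rho m / m = 1 / (j : ℝ) ^ 2 := by
  have hlog := log_of_mem h1 h2
  have hm : (0 : ℝ) < m := by
    have : 0 < 4 ^ j := by positivity
    exact_mod_cast this.trans_le h1
  rw [rho, if_pos (by unfold InBlock; rw [hlog]; exact h2), hlog]
  field_simp

/-- The series `∑ ρ(m) / m` diverges. -/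
theorem not_summable : ¬ Summable (fun m : ℕ => rho m / m) := by
  intro hs
  have hnn : ∀ m : ℕ, 0 ≤ rho m / m := fun m => div_nonneg (rho_nonneg m) (Nat.cast_nonneg m)
  have hpart : ∀ J : ℕ, (J : ℝ) ≤ ∑ m ∈ Finset.range (4 ^ (J + 1)), rho m / m := by
    intro J
    induction J with
    | zero => simpa using Finset.sum_nonneg fun m _ => hnn m
    | succ J ih =>
      have hsq := sq_le_four_pow (J + 1)
      have hsub : Finset.Ico (4 ^ (J + 1)) (4 ^ (J + 1) + (J + 1) ^ 2) ⊆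
          Finset.Ico (4 ^ (J + 1)) (4 ^ (J + 1 + 1)) := by
        apply Finset.Ico_subset_Ico_right
        rw [pow_succ 4 (J + 1)]
        omega
      have h1 : ∑ m ∈ Finset.Ico (4 ^ (J + 1)) (4 ^ (J + 1) + (J + 1) ^ 2), rho m / m = 1 := by
        rw [Finset.sum_congr rfl (g := fun _ => 1 / ((J + 1 : ℕ) : ℝ) ^ 2)]
        · rw [Finset.sum_const, Nat.card_Ico, Nat.add_sub_cancel_left, nsmul_eq_mul]
          push_cast
          have : ((J : ℝ) + 1) ≠ 0 := by positivity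
          field_simp
        · intro m hm
          rw [Finset.mem_Ico] at hm
          exact rho_of_mem hm.1 hm.2
      have h2 : ∑ m ∈ Finset.range (4 ^ (J + 1 + 1)), rho m / m =
          ∑ m ∈ Finset.range (4 ^ (J + 1)), rho m / m +
            ∑ m ∈ Finset.Ico (4 ^ (J + 1)) (4 ^ (J + 1 + 1)), rho m / m := by
        rw [Finset.range_eq_Ico, Finset.range_eq_Ico,
          Finset.sum_Ico_consecutive _ (Nat.zero_le _)
            (Nat.pow_le_pow_right (by norm_num) (by omega))]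
      have h3 : (1 : ℝ) ≤ ∑ m ∈ Finset.Ico (4 ^ (J + 1)) (4 ^ (J + 1 + 1)), rho m / m := by
        rw [← h1]
        exact Finset.sum_le_sum_of_subset_of_nonneg hsub fun m _ _ => hnn m
      rw [h2]
      push_cast
      linarith
  obtain ⟨J, hJ⟩ := exists_nat_gt (∑' m : ℕ, rho m / m)
  have := (hpart J).trans (hs.sum_le_tsum _ fun m _ => hnn m)
  linarith

/-- The bad event of the block `j`. -/
def Ev (j : ℕ) : Set ℝ :=
  {θ : ℝ | ∃ m b : ℕ, 4 ^ j ≤ m ∧ m < 4 ^ j + j ^ 2 ∧ 1 ≤ b ∧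
    |(m : ℝ) ^ θ - b| ≤ 1 / (j : ℝ) ^ 2}

/-- The error of the block `j` for exponents up to `t`. -/
noncomputable def err (t : ℝ) (j : ℕ) : ℝ := 1 / (j : ℝ) ^ 2 + (j : ℝ) ^ 2 * ((4 : ℝ) ^ (t - 1)) ^ j

theorem summable_err {t : ℝ} (ht : t < 1) : Summable (err t) := by
  have h1 : Summable (fun j : ℕ => 1 / (j : ℝ) ^ 2) := by
    rw [Real.summable_one_div_nat_pow]; norm_num
  have h2 : Summable (fun j : ℕ => (j : ℝ) ^ 2 * ((4 : ℝ) ^ (t - 1)) ^ j) := by
    apply summable_pow_mul_geometric_of_norm_lt_one 2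
    rw [Real.norm_of_nonneg (by positivity)]
    exact Real.rpow_lt_one_of_one_lt_of_neg (by norm_num) (by linarith)
  exact h1.add h2

theorem err_nonneg (t : ℝ) (j : ℕ) : 0 ≤ err t j := by unfold err; positivity

theorem meas_Ev {t : ℝ} (ht : t < 1) {j : ℕ} (hj : 1 ≤ j) :
    volume (Ev j ∩ Ioo 0 t) ≤ ENNReal.ofReal (12 * err t j) := by
  have hM : 4 ≤ 4 ^ j := by
    calc 4 = 4 ^ 1 := (pow_one 4).symm
      _ ≤ 4 ^ j := Nat.pow_le_pow_right (by norm_num) hj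
  refine le_trans (measure_mono ?_) (meas_near hM (err_nonneg t j))
  rintro θ ⟨⟨m, b, h1, h2, hb, h3⟩, h4, h5⟩
  have hθ1 : θ < 1 := h5.trans ht
  refine ⟨⟨h4, hθ1⟩, b, hb, ?_⟩
  have hM1 : (1 : ℝ) ≤ ((4 ^ j : ℕ) : ℝ) := by exact_mod_cast (by omega : 1 ≤ 4 ^ j)
  have hm : (m : ℝ) = ((4 ^ j : ℕ) : ℝ) + ((m - 4 ^ j : ℕ) : ℝ) := by
    rw [← Nat.cast_add, Nat.add_sub_cancel' h1]
  have hh : (((m - 4 ^ j : ℕ)) : ℝ) ≤ (j : ℝ) ^ 2 := by
    have : m - 4 ^ j ≤ j ^ 2 := by omega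
    exact_mod_cast this
  have e1 := rpow_sub_le hM1 (Nat.cast_nonneg (m - 4 ^ j)) h4 hθ1
  rw [← hm] at e1
  have e2 : ((4 ^ j : ℕ) : ℝ) ^ θ ≤ (m : ℝ) ^ θ :=
    Real.rpow_le_rpow (by positivity) (by exact_mod_cast h1) h4.le
  have e3 : ((4 ^ j : ℕ) : ℝ) ^ (θ - 1) ≤ ((4 : ℝ) ^ (t - 1)) ^ j := by
    calc ((4 ^ j : ℕ) : ℝ) ^ (θ - 1) ≤ ((4 ^ j : ℕ) : ℝ) ^ (t - 1) :=
          Real.rpow_le_rpow_of_exponent_le hM1 (by linarith)
      _ = ((4 : ℝ) ^ (t - 1)) ^ j := by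
          push_cast
          rw [← Real.rpow_natCast, ← Real.rpow_natCast, ← Real.rpow_mul (by norm_num),
            ← Real.rpow_mul (by norm_num), mul_comm]
  have e4 : (((m - 4 ^ j : ℕ)) : ℝ) * ((4 ^ j : ℕ) : ℝ) ^ (θ - 1) ≤
      (j : ℝ) ^ 2 * ((4 : ℝ) ^ (t - 1)) ^ j :=
    mul_le_mul hh e3 (by positivity) (by positivity)
  rw [abs_le] at h3 ⊢
  unfold err
  constructor <;> linarith [h3.1, h3.2]

theorem ae_finite_blocks :
    ∀ᵐ θ ∂(volume.restrict (Ioo (0 : ℝ) 1)), {j : ℕ | θ ∈ Ev j}.Finite := by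
  have key : ∀ t : ℝ, t < 1 → volume {θ : ℝ | θ ∈ Ioo 0 t ∧ ¬ {j : ℕ | θ ∈ Ev j}.Finite} = 0 := by
    intro t ht
    have h1 : volume (limsup (fun j : ℕ => Ev j ∩ Ioo 0 t) atTop) = 0 := by
      apply measure_limsup_atTop_eq_zero
      have hb : ∀ j : ℕ, volume (Ev j ∩ Ioo 0 t) ≤
          ENNReal.ofReal (12 * err t j + if j = 0 then 1 else 0) := by
        intro j
        rcases Nat.eq_zero_or_pos j with hj | hj
        · subst hj
          refine (measure_mono inter_subset_right).trans ?_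
          rw [Real.volume_Ioo]
          apply ENNReal.ofReal_le_ofReal
          have := err_nonneg t 0
          simp only [if_true]
          linarith
        · refine (meas_Ev ht hj).trans (ENNReal.ofReal_le_ofReal ?_)
          simp [hj.ne']
      have hsum : Summable (fun j : ℕ => 12 * err t j + if j = 0 then (1 : ℝ) else 0) := by
        apply Summable.add ((summable_err ht).mul_left 12)
        apply summable_of_finite_support
        apply (Set.finite_singleton 0).subset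
        intro j hj
        by_contra h
        exact hj (if_neg h)
      refine ne_top_of_le_ne_top ?_ (ENNReal.tsum_le_tsum hb)
      rw [← ENNReal.ofReal_tsum_of_nonneg _ hsum]
      · exact ENNReal.ofReal_ne_top
      · intro j
        have := err_nonneg t j
        split_ifs <;> linarith
    refine measure_mono_null ?_ h1
    rintro θ ⟨hθ, hinf⟩
    rw [mem_limsup_iff_frequently_mem]
    rw [Nat.frequently_atTop_iff_infinite]
    refine Set.Infinite.mono ?_ hinf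
    intro j hj
    exact ⟨hj, hθ⟩
  rw [ae_restrict_iff' measurableSet_Ioo, ae_iff]
  refine measure_mono_null (t := ⋃ n : ℕ, {θ : ℝ | θ ∈ Ioo 0 (1 - 1 / ((n : ℝ) + 1)) ∧
    ¬ {j : ℕ | θ ∈ Ev j}.Finite}) ?_ (measure_iUnion_null fun n => key _ ?_)
  · intro θ hθ
    simp only [mem_setOf_eq, Classical.not_imp] at hθ
    obtain ⟨⟨h0, h1⟩, h2⟩ := hθ
    obtain ⟨n, hn⟩ := exists_nat_one_div_lt (sub_pos.2 h1)
    rw [mem_iUnion]
    exact ⟨n, ⟨h0, by linarith⟩, h2⟩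
  · have : (0 : ℝ) < 1 / ((n : ℝ) + 1) := by positivity
    linarith

theorem ae_not_integer :
    ∀ᵐ θ : ℝ, ∀ m b : ℕ, 2 ≤ m → 1 ≤ b → (m : ℝ) ^ θ ≠ b := by
  rw [ae_all_iff]
  intro m
  rw [ae_all_iff]
  intro b
  by_cases hm : 2 ≤ m ∧ 1 ≤ b
  · have h0 : (0 : ℝ) < m := by exact_mod_cast (by omega : 0 < m)
    have h1 : (1 : ℝ) < m := by exact_mod_cast (by omega : 1 < m)
    have : ∀ᵐ θ : ℝ, θ ≠ Real.log b / Real.log m := by
      simp [ae_iff]
    filter_upwards [this] with θ hθ _ _ h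
    apply hθ
    rw [← h, Real.log_rpow h0, mul_div_cancel_right₀ _ (Real.log_pos h1).ne']
  · filter_upwards with θ h2 h3 _
    exact hm ⟨h2, h3⟩

/-- For almost every `θ ∈ (0, 1)` there are only finitely many `(a, b)` with
`|a ^ θ - b| ≤ ρ(a) / a`. -/
theorem ae_finite :
    ∀ᵐ θ ∂(volume.restrict (Ioo (0 : ℝ) 1)),
      {x : ℕ × ℕ | 1 ≤ x.1 ∧ 1 ≤ x.2 ∧ |(x.1 : ℝ) ^ θ - x.2| ≤ rho x.1 / x.1}.Finite := by
  have h2 := ae_restrict_of_ae (μ := volume) (s := Ioo (0 : ℝ) 1) ae_not_integer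
  filter_upwards [ae_finite_blocks, h2] with θ hfin hnot
  -- the first coordinates lie in `{1}` or in finitely many blocks
  have hA : ({1} ∪ ⋃ j ∈ {j : ℕ | θ ∈ Ev j}, Set.Iio (4 ^ j + j ^ 2) : Set ℕ).Finite := by
    apply (Set.finite_singleton 1).union
    exact hfin.biUnion fun j _ => Set.finite_Iio _
  have hB : ∀ a : ℕ, {b : ℕ | |(a : ℝ) ^ θ - b| ≤ rho a / a}.Finite := by
    intro a
    obtain ⟨N, hN⟩ := exists_nat_gt ((a : ℝ) ^ θ + rho a / a)
    apply (Set.finite_Iio N).subset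
    intro b hb
    rw [mem_setOf_eq, abs_le] at hb
    rw [mem_Iio]
    have : (b : ℝ) < N := by linarith [hb.1]
    exact_mod_cast this
  have hfin2 : (⋃ a ∈ ({1} ∪ ⋃ j ∈ {j : ℕ | θ ∈ Ev j}, Set.Iio (4 ^ j + j ^ 2) : Set ℕ),
      (fun b : ℕ => (a, b)) '' {b : ℕ | |(a : ℝ) ^ θ - b| ≤ rho a / a}).Finite :=
    hA.biUnion fun a _ => (hB a).image _
  apply hfin2.subset
  rintro ⟨a, b⟩ ⟨ha, hb, hab⟩
  simp only at ha hb hab
  simp only [mem_iUnion]
  refine ⟨a, ?_, b, hab, rfl⟩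
  by_cases h1 : a = 1
  · left; exact h1
  · right
    have ha2 : 2 ≤ a := by omega
    by_cases hin : InBlock a
    · have hlow : 4 ^ Nat.log 4 a ≤ a := Nat.pow_log_le_self 4 (by omega)
      simp only [mem_iUnion]
      refine ⟨Nat.log 4 a, ?_, hin⟩
      refine ⟨a, b, hlow, hin, hb, ?_⟩
      rw [rho_of_mem hlow hin] at hab
      exact hab
    · exfalso
      rw [rho, if_neg hin, zero_div] at hab
      have := abs_nonpos_iff.1 hab
      exact hnot a b ha2 hb (sub_eq_zero.1 this)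

end Pool.Agent.R521.TP
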